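import Pool.Agent.TH330.CS.Pair

/-!
The arrangement `x = i, y = j` (`|i|, |j| ≤ A`), `x + y = k, x - y = l` (`|k|, |l| ≤ B`).
-/

set_option autoImplicit false
open scoped LinearAlgebra.Projectivization
open Finset

noncomputable section

namespace Pool.TH330.CS

def dx : Fin 4 → ℚ := ![1, 0, 1, 1]
def dy : Fin 4 → ℚ := ![0, 1, 1, -1]

def lv (t : Fin 4) (k : ℤ) : Fin 3 → ℚ := ![dx t, dy t, -(k : ℚ)]

lemma lv_ne (t : Fin 4) (k : ℤ) : lv t k ≠ 0 := by
  intro h
  have h0 := congrFun h 0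
  have h1 := congrFun h 1
  fin_cases t <;> simp [lv, dx, dy] at h0 h1

/-- the lines -/
def ln (s : Sigma fun _ : Fin 4 => ℤ) : PP := Projectivization.mk ℚ (lv s.1 s.2) (lv_ne s.1 s.2)

lemma ln_inj : Function.Injective ln := by
  rintro ⟨t, k⟩ ⟨t', k'⟩ h
  unfold ln at h
  rw [Projectivization.mk_eq_mk_iff'] at h
  obtain ⟨a, ha⟩ := h
  have h0 := congrFun ha 0
  have h1 := congrFun ha 1
  have h2 := congrFun ha 2
  fin_cases t <;> fin_cases t' <;> simp [lv, dx, dy] at h0 h1 h2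
  all_goals first
    | (subst h0; simp at h2; subst h2; rfl)
    | (subst h1; simp at h2; subst h2; rfl)
    | (exfalso; linarith)
    | skip

lemma inc_ln (p : PP) (t : Fin 4) (k : ℤ) :
    inc p (ln ⟨t, k⟩) ↔ dx t * p.rep 0 + dy t * p.rep 1 = k * p.rep 2 := by
  unfold ln
  rw [inc_mk]
  simp only [lv, Matrix.cons_val_zero, Matrix.cons_val_one, Matrix.cons_val]
  constructor <;> intro h <;> linarith

def Rg (A B : ℕ) : Fin 4 → ℕ := ![A, A, B, B]

def Ix (A B : ℕ) : Finset (Sigma fun _ : Fin 4 => ℤ) :=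
  (Finset.univ : Finset (Fin 4)).sigma fun t => Finset.Icc (-(Rg A B t : ℤ)) (Rg A B t)

open Classical in
def Arr (A B : ℕ) : Finset PP := (Ix A B).image ln

lemma card_Arr (A B : ℕ) : (Arr A B).card = 4 * A + 4 * B + 4 := by
  classical
  unfold Arr
  have := Finset.card_image_of_injective (Ix A B) ln_inj
  rw [show (@Finset.image _ _ (fun a b => Classical.propDecidable (a = b)) ln (Ix A B)).card =
    (Ix A B).card by convert this]
  unfold Ix
  rw [Finset.card_sigma]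
  simp only [Int.card_Icc, Fin.sum_univ_four]
  simp only [Rg, Matrix.cons_val_zero, Matrix.cons_val_one, Matrix.cons_val]
  omega

lemma cnt_Arr (A B : ℕ) (p : PP) : cnt (Arr A B) p = ∑ t : Fin 4,
    ((Finset.Icc (-(Rg A B t : ℤ)) (Rg A B t)).filter
      (fun k : ℤ => dx t * p.rep 0 + dy t * p.rep 1 = k * p.rep 2)).card := by
  classical
  unfold cnt Arr
  rw [Finset.filter_image, Finset.card_image_of_injective _ ln_inj]
  unfold Ix
  rw [← Finset.card_sigma]
  congr 1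
  ext ⟨t, k⟩
  simp only [Finset.mem_filter, Finset.mem_sigma, Finset.mem_univ, true_and]
  rw [← inc_ln]
  rfl

/-- points at infinity -/
lemma cnt_inf (A B : ℕ) (p : PP) (hz : p.rep 2 = 0) (t : Fin 4)
    (ht : dx t * p.rep 0 + dy t * p.rep 1 = 0) : cnt (Arr A B) p = 2 * Rg A B t + 1 := by
  rw [cnt_Arr, Finset.sum_eq_single t]
  · rw [Finset.filter_true_of_mem]
    · rw [Int.card_Icc]; omega
    · intro k _; rw [hz, ht]; simp
  · intro t' _ hne
    rw [Finset.card_eq_zero, Finset.filter_eq_empty_iff]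
    intro k _ hk
    rw [hz, mul_zero] at hk
    have hp := p.rep_nonzero
    have : p.rep 0 = 0 ∧ p.rep 1 = 0 := by
      fin_cases t <;> fin_cases t' <;> simp [dx, dy] at ht hk hne ⊢ <;> constructor <;> linarith
    apply hp
    ext i
    fin_cases i
    · exact this.1
    · exact this.2
    · exact hz
  · intro h; exact absurd (Finset.mem_univ _) h

lemma cnt_inf0 (A B : ℕ) (p : PP) (hz : p.rep 2 = 0)
    (ht : ∀ t, dx t * p.rep 0 + dy t * p.rep 1 ≠ 0) : cnt (Arr A B) p = 0 := by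
  rw [cnt_Arr]
  refine Finset.sum_eq_zero fun t _ => ?_
  rw [Finset.card_eq_zero, Finset.filter_eq_empty_iff]
  intro k _ hk
  rw [hz, mul_zero] at hk
  exact ht t hk

/-- condition at a finite point -/
def on (A B : ℕ) (x y : ℚ) (t : Fin 4) : Prop :=
  ∃ k : ℤ, |k| ≤ (Rg A B t : ℤ) ∧ dx t * x + dy t * y = k

open Classical in
lemma cnt_fin (A B : ℕ) (p : PP) (hz : p.rep 2 ≠ 0) :
    cnt (Arr A B) p = ∑ t : Fin 4,
      if on A B (p.rep 0 / p.rep 2) (p.rep 1 / p.rep 2) t then 1 else 0 := by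
  rw [cnt_Arr]
  refine Finset.sum_congr rfl fun t _ => ?_
  have key : ∀ k : ℤ, dx t * p.rep 0 + dy t * p.rep 1 = k * p.rep 2 ↔
      dx t * (p.rep 0 / p.rep 2) + dy t * (p.rep 1 / p.rep 2) = k := by
    intro k
    rw [← mul_div_assoc, ← mul_div_assoc, ← add_div, div_eq_iff hz]
  split_ifs with h
  · obtain ⟨k, hk, e⟩ := h
    rw [Finset.card_eq_one]
    refine ⟨k, ?_⟩
    ext k'
    rw [Finset.mem_filter, Finset.mem_Icc, Finset.mem_singleton, key]
    rw [abs_le] at hk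
    constructor
    · rintro ⟨_, h'⟩
      rw [e] at h'
      exact_mod_cast h'.symm
    · rintro rfl
      exact ⟨hk, e⟩
  · rw [Finset.card_eq_zero, Finset.filter_eq_empty_iff]
    intro k hk hk'
    rw [key] at hk'
    rw [Finset.mem_Icc] at hk
    exact h ⟨k, abs_le.2 hk, hk'⟩

/-- finite integer points -/
def pt (s : ℤ × ℤ) : PP := Projectivization.mk ℚ ![(s.1 : ℚ), (s.2 : ℚ), 1] (by
  intro h; have := congrFun h 2; simp at this)

lemma pt_rep (s : ℤ × ℤ) : (pt s).rep 2 ≠ 0 ∧ (pt s).rep 0 / (pt s).rep 2 = s.1 ∧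
    (pt s).rep 1 / (pt s).rep 2 = s.2 := by
  obtain ⟨a, ha⟩ := Projectivization.exists_smul_eq_mk_rep ℚ ![(s.1 : ℚ), (s.2 : ℚ), 1] (by
    intro h; have := congrFun h 2; simp at this)
  have e : (pt s).rep = a • ![(s.1 : ℚ), (s.2 : ℚ), 1] := ha.symm
  have ha0 : (a : ℚ) ≠ 0 := a.ne_zero
  rw [e]
  simp only [Pi.smul_apply, Units.smul_def, smul_eq_mul, Matrix.cons_val_zero, Matrix.cons_val_one,
    Matrix.cons_val, mul_one]
  refine ⟨ha0, ?_, ?_⟩ <;> field_simp

lemma pt_inj : Function.Injective pt := by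
  intro s s' h
  have h1 := pt_rep s
  have h2 := pt_rep s'
  rw [h] at h1
  ext
  · exact_mod_cast h1.2.1.symm.trans h2.2.1
  · exact_mod_cast h1.2.2.symm.trans h2.2.2

lemma eq_pt (p : PP) (s : ℤ × ℤ) (hz : p.rep 2 ≠ 0) (h0 : p.rep 0 / p.rep 2 = s.1)
    (h1 : p.rep 1 / p.rep 2 = s.2) : p = pt s := by
  rw [← p.mk_rep]
  unfold pt
  rw [Projectivization.mk_eq_mk_iff']
  refine ⟨p.rep 2, ?_⟩
  rw [div_eq_iff hz] at h0 h1
  ext i
  fin_cases i
  · simp [h0, mul_comm]
  · simp [h1, mul_comm]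
  · simp

/-- points at infinity -/
def ip (t : Fin 4) : PP := Projectivization.mk ℚ ![-dy t, dx t, 0] (by
  intro h
  have h0 := congrFun h 0
  have h1 := congrFun h 1
  fin_cases t <;> simp [dx, dy] at h0 h1)

lemma ip_rep (t : Fin 4) : (ip t).rep 2 = 0 ∧ dx t * (ip t).rep 0 + dy t * (ip t).rep 1 = 0 := by
  obtain ⟨a, ha⟩ := Projectivization.exists_smul_eq_mk_rep ℚ ![-dy t, dx t, 0] (by
    intro h
    have h0 := congrFun h 0
    have h1 := congrFun h 1
    fin_cases t <;> simp [dx, dy] at h0 h1)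
  have e : (ip t).rep = a • ![-dy t, dx t, 0] := ha.symm
  rw [e]
  simp only [Pi.smul_apply, Units.smul_def, smul_eq_mul, Matrix.cons_val_zero, Matrix.cons_val_one,
    Matrix.cons_val, mul_zero, true_and]
  ring

lemma ip_inj : Function.Injective ip := by
  intro t t' h
  unfold ip at h
  rw [Projectivization.mk_eq_mk_iff'] at h
  obtain ⟨a, ha⟩ := h
  have h0 := congrFun ha 0
  have h1 := congrFun ha 1
  fin_cases t <;> fin_cases t' <;> simp [dx, dy] at h0 h1 ⊢
  all_goals linarith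

lemma eq_ip (p : PP) (t : Fin 4) (hz : p.rep 2 = 0)
    (h : dx t * p.rep 0 + dy t * p.rep 1 = 0) : p = ip t := by
  have h2 := ip_rep t
  refine uniq (L := ln ⟨t, 0⟩) (M := ln ⟨t, 1⟩) ?_ ?_ ?_ ?_ ?_
  · rw [inc_ln, hz, h]; simp
  · rw [inc_ln, hz, h]; simp
  · rw [inc_ln, h2.1, h2.2]; simp
  · rw [inc_ln, h2.1, h2.2]; simp
  · intro e
    have := ln_inj e
    simp at this

end Pool.TH330.CS
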