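import Pool.Agent.TH330.CS.Arr

/-!
Sums over the intersection points.
-/

set_option autoImplicit false
open scoped LinearAlgebra.Projectivization
open Finset

noncomputable section

namespace Pool.TH330.CS

/-- the lattice square -/
def Lat (A : ℕ) : Finset (ℤ × ℤ) := Finset.Icc (-(A : ℤ)) A ×ˢ Finset.Icc (-(A : ℤ)) A

/-- multiplicity of a lattice point of the square -/
def cL (B : ℕ) (s : ℤ × ℤ) : ℕ :=
  2 + (if |s.1 + s.2| ≤ (B : ℤ) then 1 else 0) + (if |s.1 - s.2| ≤ (B : ℤ) then 1 else 0)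

lemma cnt_pt (A B : ℕ) (s : ℤ × ℤ) (hs : s ∈ Lat A) : cnt (Arr A B) (pt s) = cL B s := by
  classical
  obtain ⟨hz, h0, h1⟩ := pt_rep s
  unfold Lat at hs
  rw [Finset.mem_product, Finset.mem_Icc, Finset.mem_Icc] at hs
  rw [cnt_fin _ _ _ hz, h0, h1, Fin.sum_univ_four]
  have e0 : on A B s.1 s.2 0 := ⟨s.1, abs_le.2 hs.1, by simp [dx, dy]⟩
  have e1 : on A B s.1 s.2 1 := ⟨s.2, abs_le.2 hs.2, by simp [dx, dy]⟩
  have e2 : on A B s.1 s.2 2 ↔ |s.1 + s.2| ≤ (B : ℤ) := by
    constructor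
    · rintro ⟨k, hk, e⟩
      have : s.1 + s.2 = k := by
        simp [dx, dy] at e
        exact_mod_cast e
      rw [this]; exact hk
    · intro h
      exact ⟨s.1 + s.2, h, by simp [dx, dy]⟩
  have e3 : on A B s.1 s.2 3 ↔ |s.1 - s.2| ≤ (B : ℤ) := by
    constructor
    · rintro ⟨k, hk, e⟩
      have : s.1 - s.2 = k := by
        simp [dx, dy] at e
        have e' : (s.1 : ℚ) - s.2 = k := by linarith
        exact_mod_cast e'
      rw [this]; exact hk
    · intro h
      refine ⟨s.1 - s.2, h, ?_⟩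
      simp [dx, dy]; ring
  rw [if_pos e0, if_pos e1]
  unfold cL
  simp only [e2, e3]

lemma three (A B : ℕ) (hBA : B ≤ A) (p : PP) (hz : p.rep 2 ≠ 0) (h : 3 ≤ cnt (Arr A B) p) :
    ∃ s ∈ Lat A, p = pt s := by
  classical
  rw [cnt_fin _ _ _ hz, Fin.sum_univ_four] at h
  set x := p.rep 0 / p.rep 2
  set y := p.rep 1 / p.rep 2
  have hBA' : (B : ℤ) ≤ A := by exact_mod_cast hBA
  have h0 : on A B x y 0 := by
    by_contra hn
    rw [if_neg hn] at h
    have h1 : on A B x y 1 := by by_contra hn'; rw [if_neg hn'] at h; split_ifs at h <;> omega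
    have h2 : on A B x y 2 := by by_contra hn'; rw [if_neg hn'] at h; split_ifs at h <;> omega
    have h3 : on A B x y 3 := by by_contra hn'; rw [if_neg hn'] at h; split_ifs at h <;> omega
    obtain ⟨j, hj, ej⟩ := h1
    obtain ⟨k, hk, ek⟩ := h2
    obtain ⟨l, hl, el⟩ := h3
    simp [dx, dy] at ej ek el
    have hk' : |k| ≤ (B : ℤ) := hk
    have hl' : |l| ≤ (B : ℤ) := hl
    have e1 : x = ((k - j : ℤ) : ℚ) := by push_cast; linarith
    have e2 : (k - j) + (k - j) = k + l := by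
      have : (((k - j) + (k - j) : ℤ) : ℚ) = ((k + l : ℤ) : ℚ) := by push_cast; linarith
      exact_mod_cast this
    apply hn
    refine ⟨k - j, ?_, by simp [dx, dy, e1]⟩
    change |k - j| ≤ (A : ℤ)
    rw [abs_le] at hk' hl' ⊢
    constructor <;> omega
  have h1 : on A B x y 1 := by
    by_contra hn
    rw [if_neg hn] at h
    have h2 : on A B x y 2 := by by_contra hn'; rw [if_neg hn'] at h; split_ifs at h <;> omega
    have h3 : on A B x y 3 := by by_contra hn'; rw [if_neg hn'] at h; split_ifs at h <;> omega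
    obtain ⟨i, hi, ei⟩ := h0
    obtain ⟨k, hk, ek⟩ := h2
    obtain ⟨l, hl, el⟩ := h3
    simp [dx, dy] at ei ek el
    have hk' : |k| ≤ (B : ℤ) := hk
    have hl' : |l| ≤ (B : ℤ) := hl
    have e1 : y = ((k - i : ℤ) : ℚ) := by push_cast; linarith
    have e2 : (k - i) + (k - i) = k - l := by
      have : (((k - i) + (k - i) : ℤ) : ℚ) = ((k - l : ℤ) : ℚ) := by push_cast; linarith
      exact_mod_cast this
    apply hn
    refine ⟨k - i, ?_, by simp [dx, dy, e1]⟩
    change |k - i| ≤ (A : ℤ)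
    rw [abs_le] at hk' hl' ⊢
    constructor <;> omega
  obtain ⟨i, hi, ei⟩ := h0
  obtain ⟨j, hj, ej⟩ := h1
  refine ⟨(i, j), ?_, ?_⟩
  · unfold Lat
    rw [Finset.mem_product, Finset.mem_Icc, Finset.mem_Icc]
    exact ⟨abs_le.1 hi, abs_le.1 hj⟩
  · refine eq_pt p (i, j) hz ?_ ?_
    · simpa [dx, dy] using ei
    · simpa [dx, dy] using ej

lemma cL_two_le (B : ℕ) (s : ℤ × ℤ) : 2 ≤ cL B s := by
  unfold cL; omega

lemma gsum (A B : ℕ) (hB : 1 ≤ B) (hBA : B ≤ A) (g : ℕ → ℝ) (g2 : g 2 = 0) :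
    ∑ p ∈ Pts (Arr A B), g (cnt (Arr A B) p) =
      ∑ t : Fin 4, g (2 * Rg A B t + 1) + ∑ s ∈ Lat A, g (cL B s) := by
  classical
  have hR : ∀ t, 1 ≤ Rg A B t := by
    intro t; fin_cases t <;> simp [Rg] <;> omega
  set I : Finset PP := (Finset.univ : Finset (Fin 4)).image ip
  set T : Finset PP := (Lat A).image pt
  have hdis : Disjoint I T := by
    rw [Finset.disjoint_left]
    intro p hp hp'
    obtain ⟨t, _, rfl⟩ := Finset.mem_image.1 hp
    obtain ⟨s, _, e⟩ := Finset.mem_image.1 hp'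
    have := (pt_rep s).1
    rw [e] at this
    exact this (ip_rep t).1
  have hsub : I ∪ T ⊆ Pts (Arr A B) := by
    intro p hp
    rw [mem_Pts]
    rcases Finset.mem_union.1 hp with hp | hp
    · obtain ⟨t, _, rfl⟩ := Finset.mem_image.1 hp
      rw [cnt_inf A B _ (ip_rep t).1 t (ip_rep t).2]
      have := hR t
      omega
    · obtain ⟨s, hs, rfl⟩ := Finset.mem_image.1 hp
      rw [cnt_pt A B s hs]
      exact cL_two_le B s
  rw [← Finset.sum_subset hsub, Finset.sum_union hdis,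
    Finset.sum_image (fun a _ b _ h => ip_inj h), Finset.sum_image (fun a _ b _ h => pt_inj h)]
  · congr 1
    · refine Finset.sum_congr rfl fun t _ => ?_
      rw [cnt_inf A B _ (ip_rep t).1 t (ip_rep t).2]
    · refine Finset.sum_congr rfl fun s hs => ?_
      rw [cnt_pt A B s hs]
  · intro p hp hp'
    rw [mem_Pts] at hp
    have h3 : ¬ 3 ≤ cnt (Arr A B) p := by
      intro h3
      apply hp'
      rw [Finset.mem_union]
      by_cases hz : p.rep 2 = 0
      · left
        by_cases hex : ∃ t, dx t * p.rep 0 + dy t * p.rep 1 = 0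
        · obtain ⟨t, ht⟩ := hex
          rw [eq_ip p t hz ht]
          exact Finset.mem_image_of_mem _ (Finset.mem_univ t)
        · push Not at hex
          rw [cnt_inf0 A B p hz hex] at h3
          omega
      · right
        obtain ⟨s, hs, rfl⟩ := three A B hBA p hz h3
        exact Finset.mem_image_of_mem _ hs
    have : cnt (Arr A B) p = 2 := by omega
    rw [this, g2]

lemma sum_abs (B : ℕ) : ∑ k ∈ Finset.Icc (-(B : ℤ)) B, |k| = (B : ℤ) * (B + 1) := by
  induction B with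
  | zero => simp
  | succ B ih =>
    have e : Finset.Icc (-((B + 1 : ℕ) : ℤ)) ((B + 1 : ℕ) : ℤ) =
        insert (-((B : ℤ) + 1)) (insert ((B : ℤ) + 1) (Finset.Icc (-(B : ℤ)) B)) := by
      ext k
      simp only [Finset.mem_Icc, Finset.mem_insert]
      push_cast
      omega
    rw [e, Finset.sum_insert, Finset.sum_insert, ih]
    · rw [abs_neg, abs_of_nonneg (by positivity : (0 : ℤ) ≤ (B : ℤ) + 1)]
      push_cast; ring
    · simp only [Finset.mem_Icc]; omega
    · simp only [Finset.mem_Icc, Finset.mem_insert]; omega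

lemma card_IccZ (B : ℕ) : (Finset.Icc (-(B : ℤ)) B).card = 2 * B + 1 := by
  rw [Int.card_Icc]; omega

lemma NP (A B : ℕ) (hBA : B ≤ A) :
    (((Lat A).filter (fun s => |s.1 + s.2| ≤ (B : ℤ))).card : ℤ) =
      (2 * B + 1) * (2 * A + 1) - B * (B + 1) := by
  classical
  rw [Finset.card_eq_sum_card_fiberwise (f := fun s : ℤ × ℤ => s.1 + s.2)
    (t := Finset.Icc (-(B : ℤ)) B)]
  · push_cast
    have : ∀ k ∈ Finset.Icc (-(B : ℤ)) B, ((((Lat A).filter (fun s => |s.1 + s.2| ≤ (B : ℤ))).filter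
        (fun s => s.1 + s.2 = k)).card : ℤ) = (2 * A + 1) - |k| := by
      intro k hk
      rw [Finset.mem_Icc] at hk
      have e : ((Lat A).filter (fun s => |s.1 + s.2| ≤ (B : ℤ))).filter
          (fun s => s.1 + s.2 = k) =
          (Finset.Icc (max (-(A : ℤ)) (k - A)) (min (A : ℤ) (k + A))).image
            (fun x => (x, k - x)) := by
        ext ⟨x, y⟩
        simp only [Lat, Finset.mem_filter, Finset.mem_product, Finset.mem_Icc, Finset.mem_image,
          Prod.mk.injEq, abs_le]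
        constructor
        · rintro ⟨⟨⟨⟨a, b⟩, c, d⟩, e⟩, f⟩
          refine ⟨x, ⟨?_, ?_⟩, rfl, by omega⟩
          · rw [max_le_iff]; constructor <;> omega
          · rw [le_min_iff]; constructor <;> omega
        · rintro ⟨x', ⟨a, b⟩, rfl, rfl⟩
          rw [max_le_iff] at a
          rw [le_min_iff] at b
          omega
      rw [e, Finset.card_image_of_injective _ (by
        intro a b h; exact (Prod.mk.inj h).1), Int.card_Icc]
      rcases abs_cases k with ⟨h1, h2⟩ | ⟨h1, h2⟩ <;> rw [h1] <;> omega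
    rw [Finset.sum_congr rfl this, Finset.sum_sub_distrib, sum_abs, Finset.sum_const, card_IccZ]
    push_cast; ring
  · intro s hs
    rw [Finset.mem_coe, Finset.mem_filter] at hs
    rw [Finset.mem_coe, Finset.mem_Icc]
    exact abs_le.1 hs.2

lemma NM (A B : ℕ) (hBA : B ≤ A) :
    (((Lat A).filter (fun s => |s.1 - s.2| ≤ (B : ℤ))).card : ℤ) =
      (2 * B + 1) * (2 * A + 1) - B * (B + 1) := by
  classical
  rw [← NP A B hBA]
  congr 1
  refine Finset.card_bij (fun s _ => (s.1, -s.2)) ?_ ?_ ?_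
  · intro s hs
    simp only [Lat, Finset.mem_filter, Finset.mem_product, Finset.mem_Icc] at hs ⊢
    refine ⟨⟨hs.1.1, by omega, by omega⟩, ?_⟩
    rw [← sub_eq_add_neg]; exact hs.2
  · rintro ⟨a, b⟩ _ ⟨a', b'⟩ _ h
    simp only [Prod.mk.injEq, neg_inj] at h
    ext
    · exact h.1
    · exact h.2
  · intro s hs
    simp only [Lat, Finset.mem_filter, Finset.mem_product, Finset.mem_Icc] at hs
    refine ⟨(s.1, -s.2), ?_, by simp⟩
    simp only [Lat, Finset.mem_filter, Finset.mem_product, Finset.mem_Icc]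
    refine ⟨⟨hs.1.1, by omega, by omega⟩, ?_⟩
    rw [sub_neg_eq_add]; exact hs.2

lemma N4 (A B : ℕ) (hBA : B ≤ A) :
    (((Lat A).filter (fun s => |s.1 + s.2| ≤ (B : ℤ) ∧ |s.1 - s.2| ≤ (B : ℤ))).card : ℤ) =
      2 * B ^ 2 + 2 * B + 1 := by
  classical
  rw [Finset.card_eq_sum_card_fiberwise (f := fun s : ℤ × ℤ => s.1)
    (t := Finset.Icc (-(B : ℤ)) B)]
  · push_cast
    have : ∀ k ∈ Finset.Icc (-(B : ℤ)) B, ((((Lat A).filter
        (fun s => |s.1 + s.2| ≤ (B : ℤ) ∧ |s.1 - s.2| ≤ (B : ℤ))).filter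
        (fun s => s.1 = k)).card : ℤ) = (2 * B + 1) - 2 * |k| := by
      intro k hk
      rw [Finset.mem_Icc] at hk
      have e : ((Lat A).filter (fun s => |s.1 + s.2| ≤ (B : ℤ) ∧ |s.1 - s.2| ≤ (B : ℤ))).filter
          (fun s => s.1 = k) =
          (Finset.Icc (-((B : ℤ) - |k|)) ((B : ℤ) - |k|)).image (fun y => (k, y)) := by
        ext ⟨x, y⟩
        simp only [Lat, Finset.mem_filter, Finset.mem_product, Finset.mem_Icc, Finset.mem_image,
          Prod.mk.injEq, abs_le]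
        rcases abs_cases k with ⟨h1, h2⟩ | ⟨h1, h2⟩ <;> rw [h1]
        · constructor
          · rintro ⟨⟨⟨⟨a, b⟩, c, d⟩, e, f⟩, rfl⟩
            exact ⟨y, ⟨by omega, by omega⟩, rfl, rfl⟩
          · rintro ⟨x', ⟨a, b⟩, rfl, rfl⟩
            omega
        · constructor
          · rintro ⟨⟨⟨⟨a, b⟩, c, d⟩, e, f⟩, rfl⟩
            exact ⟨y, ⟨by omega, by omega⟩, rfl, rfl⟩
          · rintro ⟨x', ⟨a, b⟩, rfl, rfl⟩
            omega
      rw [e, Finset.card_image_of_injective _ (by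
        intro a b h; exact (Prod.mk.inj h).2), Int.card_Icc]
      rcases abs_cases k with ⟨h1, h2⟩ | ⟨h1, h2⟩ <;> rw [h1] <;> omega
    rw [Finset.sum_congr rfl this, Finset.sum_sub_distrib, ← Finset.mul_sum, sum_abs,
      Finset.sum_const, card_IccZ]
    push_cast; ring
  · intro s hs
    rw [Finset.mem_coe, Finset.mem_filter] at hs
    rw [Finset.mem_coe, Finset.mem_Icc]
    obtain ⟨_, h1, h2⟩ := hs
    rw [abs_le] at h1 h2
    change -(B : ℤ) ≤ s.1 ∧ s.1 ≤ (B : ℤ)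
    omega

lemma latsum (A B : ℕ) (hBA : B ≤ A) (g : ℕ → ℝ) (g2 : g 2 = 0) :
    ∑ s ∈ Lat A, g (cL B s) =
      g 3 * (2 * ((2 * B + 1) * (2 * A + 1) - B * (B + 1))) +
        (g 4 - 2 * g 3) * (2 * B ^ 2 + 2 * B + 1) := by
  classical
  have h1 : ∀ s ∈ Lat A, g (cL B s) = g 3 * (if |s.1 + s.2| ≤ (B : ℤ) then 1 else 0) +
      g 3 * (if |s.1 - s.2| ≤ (B : ℤ) then 1 else 0) +
      (g 4 - 2 * g 3) * (if |s.1 + s.2| ≤ (B : ℤ) ∧ |s.1 - s.2| ≤ (B : ℤ) then 1 else 0) := by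
    intro s _
    unfold cL
    by_cases a : |s.1 + s.2| ≤ (B : ℤ) <;> by_cases b : |s.1 - s.2| ≤ (B : ℤ) <;>
      simp [a, b, g2]
    ring
  have p1 := NP A B hBA
  have p2 := NM A B hBA
  have p3 := N4 A B hBA
  have q1 : (((Lat A).filter (fun s => |s.1 + s.2| ≤ (B : ℤ))).card : ℝ) =
      (2 * B + 1) * (2 * A + 1) - B * (B + 1) := by exact_mod_cast p1
  have q2 : (((Lat A).filter (fun s => |s.1 - s.2| ≤ (B : ℤ))).card : ℝ) =
      (2 * B + 1) * (2 * A + 1) - B * (B + 1) := by exact_mod_cast p2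
  have q3 : (((Lat A).filter (fun s => |s.1 + s.2| ≤ (B : ℤ) ∧ |s.1 - s.2| ≤ (B : ℤ))).card : ℝ) =
      2 * B ^ 2 + 2 * B + 1 := by exact_mod_cast p3
  rw [Finset.sum_congr rfl h1, Finset.sum_add_distrib, Finset.sum_add_distrib, ← Finset.mul_sum,
    ← Finset.mul_sum, ← Finset.mul_sum, Finset.sum_boole, Finset.sum_boole, Finset.sum_boole,
    q1, q2, q3]
  ring

/-- the sum of a weight over all intersection points -/
lemma wtot (A B : ℕ) (hB : 1 ≤ B) (hBA : B ≤ A) (w : ℕ → ℝ) :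
    ∑ p ∈ Pts (Arr A B), w (cnt (Arr A B) p) =
      w 2 * (((4 * A + 4 * B + 4) * (4 * A + 4 * B + 3)) / 2 : ℝ) +
      2 * (w (2 * A + 1) - w 2 * ((2 * A + 1) * (2 * A) / 2)) +
      2 * (w (2 * B + 1) - w 2 * ((2 * B + 1) * (2 * B) / 2)) +
      (w 3 - 3 * w 2) * (2 * ((2 * B + 1) * (2 * A + 1) - B * (B + 1))) +
        ((w 4 - 6 * w 2) - 2 * (w 3 - 3 * w 2)) * (2 * B ^ 2 + 2 * B + 1) := by
  set g : ℕ → ℝ := fun c => w c - w 2 * ((c : ℝ) * (c - 1) / 2) with hg
  have g2 : g 2 = 0 := by simp [hg]; ring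
  have h1 := gsum A B hB hBA g g2
  rw [latsum A B hBA g g2] at h1
  have h2 := pair_sum (Arr A B)
  have h3 : ∑ p ∈ Pts (Arr A B), g (cnt (Arr A B) p) =
      ∑ p ∈ Pts (Arr A B), w (cnt (Arr A B) p) -
        w 2 / 2 * ∑ p ∈ Pts (Arr A B), (cnt (Arr A B) p : ℝ) * (cnt (Arr A B) p - 1) := by
    rw [Finset.mul_sum, ← Finset.sum_sub_distrib]
    refine Finset.sum_congr rfl fun p _ => ?_
    simp only [hg]; ring
  rw [h3, ← h2, card_Arr, Fin.sum_univ_four] at h1
  simp only [hg, Rg, Matrix.cons_val_zero, Matrix.cons_val_one, Matrix.cons_val] at h1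
  push_cast at h1
  linarith

end Pool.TH330.CS
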