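import Pool.Agent.TH330.CS.Count

/-!
The limits of the Chern slopes.
-/

set_option autoImplicit false
open scoped LinearAlgebra.Projectivization
open Finset Filter Topology

noncomputable section

namespace Pool.TH330.CS

/-- the set of Chern slopes of line arrangements over `ℚ` -/
def Slopes : Set ℝ := {s : ℝ | ∃ A : Finset (ℙ ℚ (Fin 3 → ℚ)),
      3 ≤ A.card ∧
      (¬ ∃ p : ℙ ℚ (Fin 3 → ℚ),
          (A.filter (fun L => ∑ i, p.rep i * L.rep i = 0)).card = A.card) ∧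
      (¬ ∃ p : ℙ ℚ (Fin 3 → ℚ),
          (A.filter (fun L => ∑ i, p.rep i * L.rep i = 0)).card = A.card - 1) ∧
      s = ((9 : ℝ) - 5 * (A.card : ℝ)
            + ∑ k ∈ Finset.Icc 2 A.card, (3 * (k : ℝ) - 4) *
                (({p : ℙ ℚ (Fin 3 → ℚ) |
                    (A.filter (fun L => ∑ i, p.rep i * L.rep i = 0)).card = k}.ncard : ℕ) : ℝ))
          / ((3 : ℝ) - 2 * (A.card : ℝ)
            + ∑ k ∈ Finset.Icc 2 A.card, ((k : ℝ) - 1) *
                (({p : ℙ ℚ (Fin 3 → ℚ) |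
                    (A.filter (fun L => ∑ i, p.rep i * L.rep i = 0)).card = k}.ncard : ℕ) : ℝ))}

lemma cnt_small (A B : ℕ) (hB : 1 ≤ B) (hBA : B ≤ A) (p : PP) :
    cnt (Arr A B) p < 4 * A + 4 * B + 3 := by
  classical
  by_cases hz : p.rep 2 = 0
  · by_cases hex : ∃ t, dx t * p.rep 0 + dy t * p.rep 1 = 0
    · obtain ⟨t, ht⟩ := hex
      rw [cnt_inf A B p hz t ht]
      fin_cases t <;> simp [Rg] <;> omega
    · push Not at hex
      rw [cnt_inf0 A B p hz hex]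
      omega
  · rw [cnt_fin _ _ _ hz]
    refine lt_of_le_of_lt (Finset.sum_le_sum (g := fun _ => 1) fun t _ => ?_) ?_
    · split_ifs <;> omega
    · simp; omega

lemma slope_mem (A B : ℕ) (hB : 1 ≤ B) (hBA : B ≤ A) :
    ((8 * A ^ 2 + 24 * A * B + 6 * B ^ 2 + 12 * A + 10 * B - 7 : ℝ) /
      (4 * (A + B) ^ 2 + 4 * (A + B) - 2)) ∈ Slopes := by
  refine ⟨Arr A B, ?_, ?_, ?_, ?_⟩
  · rw [card_Arr]; omega
  · rintro ⟨p, hp⟩
    have h1 : cnt (Arr A B) p = (Arr A B).card := hp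
    have h2 := cnt_small A B hB hBA p
    rw [card_Arr] at h1
    omega
  · rintro ⟨p, hp⟩
    have h1 : cnt (Arr A B) p = (Arr A B).card - 1 := hp
    have h2 := cnt_small A B hB hBA p
    rw [card_Arr] at h1
    omega
  · rw [wsum (Arr A B) (fun k => 3 * (k : ℝ) - 4), wsum (Arr A B) (fun k => (k : ℝ) - 1),
      wtot A B hB hBA (fun k => 3 * (k : ℝ) - 4), wtot A B hB hBA (fun k => (k : ℝ) - 1), card_Arr]
    push_cast
    congr 1 <;> ring

/-- the limit slope -/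
def phi (b : ℝ) : ℝ := (8 + 24 * b + 6 * b ^ 2) / (4 * (1 + b) ^ 2)

lemma tend (b : ℝ) (hb : 0 < b) :
    Tendsto (fun n : ℕ => ((8 * (n : ℝ) ^ 2 + 24 * n * (⌊b * n⌋₊ : ℝ) + 6 * (⌊b * n⌋₊ : ℝ) ^ 2 +
      12 * n + 10 * (⌊b * n⌋₊ : ℝ) - 7) /
      (4 * (n + (⌊b * n⌋₊ : ℝ)) ^ 2 + 4 * (n + (⌊b * n⌋₊ : ℝ)) - 2))) atTop (𝓝 (phi b)) := by
  have h1 : Tendsto (fun n : ℕ => (⌊b * n⌋₊ : ℝ) / n) atTop (𝓝 b) :=
    (tendsto_nat_floor_mul_div_atTop hb.le).comp tendsto_natCast_atTop_atTop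
  have h2 : Tendsto (fun n : ℕ => (1 : ℝ) / n) atTop (𝓝 0) := tendsto_one_div_atTop_nhds_zero_nat
  have hnum : Tendsto (fun n : ℕ => 8 + 24 * ((⌊b * n⌋₊ : ℝ) / n) + 6 * ((⌊b * n⌋₊ : ℝ) / n) ^ 2 +
      12 * ((1 : ℝ) / n) + 10 * ((⌊b * n⌋₊ : ℝ) / n) * ((1 : ℝ) / n) - 7 * ((1 : ℝ) / n) ^ 2) atTop
      (𝓝 (8 + 24 * b + 6 * b ^ 2 + 12 * 0 + 10 * b * 0 - 7 * 0 ^ 2)) := by
    exact (((((tendsto_const_nhds.add (h1.const_mul 24)).add ((h1.pow 2).const_mul 6)).add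
      (h2.const_mul 12)).add ((h1.const_mul 10).mul h2)).sub ((h2.pow 2).const_mul 7))
  have hden : Tendsto (fun n : ℕ => 4 * (1 + (⌊b * n⌋₊ : ℝ) / n) ^ 2 +
      4 * (1 + (⌊b * n⌋₊ : ℝ) / n) * ((1 : ℝ) / n) - 2 * ((1 : ℝ) / n) ^ 2) atTop
      (𝓝 (4 * (1 + b) ^ 2 + 4 * (1 + b) * 0 - 2 * 0 ^ 2)) := by
    exact ((((tendsto_const_nhds.add h1).pow 2).const_mul 4).add
      (((tendsto_const_nhds.add h1).const_mul 4).mul h2)).sub ((h2.pow 2).const_mul 2)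
  have hd0 : (4 * (1 + b) ^ 2 + 4 * (1 + b) * 0 - 2 * 0 ^ 2 : ℝ) ≠ 0 := by
    have : 0 < (1 + b) ^ 2 := by positivity
    nlinarith
  have h := hnum.div hden hd0
  have e : (8 + 24 * b + 6 * b ^ 2 + 12 * 0 + 10 * b * 0 - 7 * 0 ^ 2 : ℝ) /
      (4 * (1 + b) ^ 2 + 4 * (1 + b) * 0 - 2 * 0 ^ 2) = phi b := by
    unfold phi; ring_nf
  rw [e] at h
  refine h.congr' ?_
  filter_upwards [eventually_gt_atTop 0] with n hn
  have hn' : (n : ℝ) ≠ 0 := by positivity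
  rw [Pi.div_apply]
  rw [← mul_div_mul_left _ _ (pow_ne_zero 2 hn')]
  congr 1 <;> field_simp

lemma mem_closure_aux (b : ℝ) (hb : 0 < b) (hb1 : b ≤ 1) (ε : ℝ) (hε : 0 < ε) :
    ∃ s ∈ Slopes, |s - phi b| < ε := by
  have h := tend b hb
  rw [Metric.tendsto_atTop] at h
  obtain ⟨N, hN⟩ := h ε hε
  obtain ⟨M, hM⟩ := exists_nat_gt (1 / b)
  set n := max N M with hn
  have hnM : (M : ℝ) ≤ n := by exact_mod_cast le_max_right N M
  have hbn : 1 ≤ b * n := by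
    have : 1 / b < n := lt_of_lt_of_le hM hnM
    rw [div_lt_iff₀ hb] at this
    linarith
  have hB : 1 ≤ ⌊b * n⌋₊ := by
    rw [Nat.one_le_floor_iff]; exact hbn
  have hBA : ⌊b * n⌋₊ ≤ n := by
    have : b * n ≤ n := by
      have : (0 : ℝ) ≤ n := by positivity
      nlinarith
    calc ⌊b * n⌋₊ ≤ ⌊(n : ℝ)⌋₊ := Nat.floor_le_floor this
      _ = n := Nat.floor_natCast n
  refine ⟨_, slope_mem n ⌊b * n⌋₊ hB hBA, ?_⟩
  have := hN n (le_max_left N M)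
  rw [Real.dist_eq] at this
  exact this

lemma phi_surj (r : ℝ) (h1 : 2 < r) (h2 : r ≤ 12 / 5) : ∃ b : ℝ, 0 < b ∧ b ≤ 1 ∧ phi b = r := by
  have hc : ContinuousOn phi (Set.Icc (0 : ℝ) (2 / 3)) := by
    unfold phi
    refine ContinuousOn.div (by fun_prop) (by fun_prop) ?_
    intro x hx
    have : 0 < (1 + x) ^ 2 := by have := hx.1; positivity
    positivity
  have h0 : phi 0 = 2 := by unfold phi; norm_num
  have h3 : phi (2 / 3) = 12 / 5 := by unfold phi; norm_num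
  have := intermediate_value_Icc (by norm_num : (0 : ℝ) ≤ 2 / 3) hc
  rw [h0, h3] at this
  obtain ⟨b, hb, e⟩ := this ⟨h1.le, h2⟩
  refine ⟨b, ?_, by linarith [hb.2], e⟩
  rcases hb.1.eq_or_lt with h | h
  · rw [← h, h0] at e; linarith
  · exact h

theorem main : Set.Icc (2 : ℝ) (12 / 5) ⊆ derivedSet Slopes := by
  intro r hr
  rw [mem_derivedSet, accPt_iff_nhds]
  intro U hU
  obtain ⟨ε, hε, hU'⟩ := Metric.mem_nhds_iff.1 hU
  -- a value r' near r, different from r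
  obtain ⟨r', h1, h2, h3, h4⟩ : ∃ r' : ℝ, 2 < r' ∧ r' ≤ 12 / 5 ∧ r' ≠ r ∧ |r' - r| < ε / 2 := by
    rcases lt_or_ge r (11 / 5) with h | h
    · refine ⟨r + min (ε / 4) (1 / 10), ?_, ?_, ?_, ?_⟩
      · have := hr.1
        have : 0 < min (ε / 4) (1 / 10 : ℝ) := by positivity
        linarith
      · have : min (ε / 4) (1 / 10 : ℝ) ≤ 1 / 10 := min_le_right _ _
        linarith
      · have : 0 < min (ε / 4) (1 / 10 : ℝ) := by positivity
        linarith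
      · have h5 : 0 < min (ε / 4) (1 / 10 : ℝ) := by positivity
        have h6 : min (ε / 4) (1 / 10 : ℝ) ≤ ε / 4 := min_le_left _ _
        rw [add_sub_cancel_left, abs_of_pos h5]
        linarith
    · refine ⟨r - min (ε / 4) (1 / 10), ?_, ?_, ?_, ?_⟩
      · have : min (ε / 4) (1 / 10 : ℝ) ≤ 1 / 10 := min_le_right _ _
        linarith
      · have := hr.2
        have : 0 < min (ε / 4) (1 / 10 : ℝ) := by positivity
        linarith
      · have : 0 < min (ε / 4) (1 / 10 : ℝ) := by positivity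
        linarith
      · have h5 : 0 < min (ε / 4) (1 / 10 : ℝ) := by positivity
        have h6 : min (ε / 4) (1 / 10 : ℝ) ≤ ε / 4 := min_le_left _ _
        rw [sub_sub_cancel_left, abs_neg, abs_of_pos h5]
        linarith
  obtain ⟨b, hb, hb1, e⟩ := phi_surj r' h1 h2
  have h5 : 0 < |r' - r| := abs_pos.2 (sub_ne_zero.2 h3)
  obtain ⟨s, hs, hs'⟩ := mem_closure_aux b hb hb1 (min (ε / 2) |r' - r|) (by positivity)
  rw [e] at hs'
  have h6 := lt_of_lt_of_le hs' (min_le_left _ _)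
  have h7 := lt_of_lt_of_le hs' (min_le_right _ _)
  refine ⟨s, ⟨hU' ?_, hs⟩, ?_⟩
  · rw [Metric.mem_ball, Real.dist_eq]
    calc |s - r| = |(s - r') + (r' - r)| := by ring_nf
      _ ≤ |s - r'| + |r' - r| := abs_add_le _ _
      _ < ε := by linarith
  · rintro rfl
    rw [abs_sub_comm] at h7
    exact lt_irrefl _ h7

end Pool.TH330.CS
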