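import Mathlib

/-!
Counting for arrangements of lines in the projective plane over `ℚ`.
-/

set_option autoImplicit false
open scoped LinearAlgebra.Projectivization
open Finset

noncomputable section

namespace Pool.TH330.CS

abbrev PP := ℙ ℚ (Fin 3 → ℚ)

/-- incidence -/
def inc (p L : PP) : Prop := ∑ i, p.rep i * L.rep i = 0

instance (p : PP) : DecidablePred (inc p) := fun L =>
  inferInstanceAs (Decidable (∑ i, p.rep i * L.rep i = 0))

/-- number of lines of `A` through `p` -/
def cnt (A : Finset PP) (p : PP) : ℕ := (A.filter (fun L => ∑ i, p.rep i * L.rep i = 0)).card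

lemma inc_orth (p L : PP) : inc p L ↔ Projectivization.orthogonal p L := by
  conv_rhs => rw [← p.mk_rep, ← L.mk_rep]
  rw [Projectivization.orthogonal_mk]
  rfl

lemma inc_mk (p : PP) (w : Fin 3 → ℚ) (hw : w ≠ 0) :
    inc p (Projectivization.mk ℚ w hw) ↔ p.rep 0 * w 0 + p.rep 1 * w 1 + p.rep 2 * w 2 = 0 := by
  rw [inc_orth]
  conv_lhs => rw [← p.mk_rep]
  rw [Projectivization.orthogonal_mk]
  simp [dotProduct, Fin.sum_univ_three]

lemma uniq {p q L M : PP} (h1 : inc p L) (h2 : inc p M) (h3 : inc q L) (h4 : inc q M)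
    (h : L ≠ M) : p = q := by
  rw [inc_orth] at h1 h2 h3 h4
  classical
  have := Configuration.Nondegenerate.eq_or_eq (P := PP) (L := PP) (p₁ := p) (p₂ := q)
    (l₁ := L) (l₂ := M) h1 h3 h2 h4
  tauto

/-- meeting point -/
def mt (s : PP × PP) : PP := Projectivization.cross s.1 s.2

lemma mt_left {L M : PP} (h : L ≠ M) : inc (mt (L, M)) L := by
  rw [inc_orth]; exact Projectivization.cross_orthogonal_left h
lemma mt_right {L M : PP} (h : L ≠ M) : inc (mt (L, M)) M := by
  rw [inc_orth]; exact Projectivization.cross_orthogonal_right h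

open Classical in
/-- the intersection points -/
def Pts (A : Finset PP) : Finset PP := A.offDiag.image mt

lemma mem_Pts (A : Finset PP) (p : PP) : p ∈ Pts A ↔ 2 ≤ cnt A p := by
  classical
  unfold Pts cnt
  rw [Finset.mem_image]
  constructor
  · rintro ⟨⟨L, M⟩, h, rfl⟩
    rw [Finset.mem_offDiag] at h
    obtain ⟨hL, hM, hne⟩ := h
    have : Finset.card {L, M} ≤ (A.filter (fun L' => ∑ i, (mt (L, M)).rep i * L'.rep i = 0)).card := by
      refine Finset.card_le_card ?_
      intro x hx
      simp only [Finset.mem_insert, Finset.mem_singleton] at hx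
      rw [Finset.mem_filter]
      rcases hx with rfl | rfl
      · exact ⟨hL, mt_left hne⟩
      · exact ⟨hM, mt_right hne⟩
    rwa [Finset.card_pair hne] at this
  · intro h
    obtain ⟨L, hL, M, hM, hne⟩ := Finset.one_lt_card.1 (by omega : 1 < (A.filter (fun L => ∑ i, p.rep i * L.rep i = 0)).card)
    rw [Finset.mem_filter] at hL hM
    refine ⟨(L, M), ?_, ?_⟩
    · rw [Finset.mem_offDiag]; exact ⟨hL.1, hM.1, hne⟩
    · exact uniq (mt_left hne) (mt_right hne) hL.2 hM.2 hne

lemma pair_sum (A : Finset PP) :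
    (A.card : ℝ) * (A.card - 1) = ∑ p ∈ Pts A, (cnt A p : ℝ) * (cnt A p - 1) := by
  classical
  have h1 : ∀ n : ℕ, ((n * n - n : ℕ) : ℝ) = (n : ℝ) * (n - 1) := by
    intro n
    rw [Nat.cast_sub (by nlinarith [Nat.zero_le n, Nat.le_mul_self n])]
    push_cast; ring
  rw [← h1, ← Finset.offDiag_card, Finset.card_eq_sum_card_image mt A.offDiag]
  push_cast
  refine Finset.sum_congr ?_ fun p hp => ?_
  · unfold Pts; congr
  · rw [← h1]
    congr 1
    unfold cnt
    rw [← Finset.offDiag_card]
    congr 1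
    ext ⟨L, M⟩
    simp only [Finset.mem_filter, Finset.mem_offDiag]
    constructor
    · rintro ⟨⟨a, b, c⟩, rfl⟩
      exact ⟨⟨a, mt_left c⟩, ⟨b, mt_right c⟩, c⟩
    · rintro ⟨⟨a, a'⟩, ⟨b, b'⟩, c⟩
      exact ⟨⟨a, b, c⟩, uniq (mt_left c) (mt_right c) a' b' c⟩

lemma cnt_le (A : Finset PP) (p : PP) : cnt A p ≤ A.card := Finset.card_filter_le _ _

lemma wsum (A : Finset PP) (w : ℕ → ℝ) :
    ∑ k ∈ Finset.Icc 2 A.card, w k * (({p : PP |
        (A.filter (fun L => ∑ i, p.rep i * L.rep i = 0)).card = k}.ncard : ℕ) : ℝ) =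
      ∑ p ∈ Pts A, w (cnt A p) := by
  classical
  rw [← Finset.sum_fiberwise_of_maps_to (s := Pts A) (t := Finset.Icc 2 A.card) (g := cnt A)]
  · refine Finset.sum_congr rfl fun k hk => ?_
    have e : {p : PP | (A.filter (fun L => ∑ i, p.rep i * L.rep i = 0)).card = k} =
        (((Pts A).filter (fun p => cnt A p = k) : Finset PP) : Set PP) := by
      ext p
      simp only [Set.mem_setOf_eq, Finset.coe_filter, mem_Pts]
      rw [Finset.mem_Icc] at hk
      constructor
      · intro h
        have : cnt A p = k := h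
        exact ⟨by omega, this⟩
      · rintro ⟨_, h⟩; exact h
    rw [e, Set.ncard_coe_finset, mul_comm, ← nsmul_eq_mul, ← Finset.sum_const]
    refine Finset.sum_congr rfl fun p hp => ?_
    rw [Finset.mem_filter] at hp
    rw [hp.2]
  · intro p hp
    rw [mem_Pts] at hp
    rw [Finset.mem_Icc]
    exact ⟨hp, cnt_le A p⟩

end Pool.TH330.CS
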